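import Pool.Agent.Helper14.TH7.StD

/-!
# Project TH, p = 7: modules STA and LWD

`hSta` is adapted from `Helper66/S7/M_Sta.lean`.
-/

set_option autoImplicit false

namespace Pool.Agent.Helper94.TH7

open Pool.Agent.Helper14.TH7 Pool.Agent.Helper84.S7
open Pool.Agent.Helper4.S7 (pj S7Pj)

private theorem om4 : ((om6 4 : ℤ) : ZMod 7) = 2 := by
  have h : om6 4 = -19 := rfl
  rw [h]
  decide

theorem hSta (hl : S7Low0) (_hn : S7Nfa) (h1 : S7Lw1) (hp : S7Pj) : TSta := by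
  intro r s e E hE h0 h3
  obtain ⟨-, -, -, -, hmono, -⟩ := hl r s
  obtain ⟨hp0, hsum, -, hW, -⟩ := hp r s
  obtain ⟨-, hα⟩ := h1 r s 6 (-1) 2 (-2) (by norm_num) (by norm_num)
  have h4 : om6 4 = -19 := rfl
  obtain ⟨hα1, -⟩ := hα 4 (by rw [h4]; norm_num)
  have hP : ∀ c : ℕ, pj c E ∈ Wd7 e := fun c => by
    have := hp0 c e E hE
    rwa [sub_zero] at this
  have hK : ∀ c : ℕ, op7 6 (-1) 2 (-2) (pj c E) - (2 : ZMod 7) ^ c • pj c E ∈ Wd7 (e - 1) := fun c => by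
    have a1 := hα1 e (pj c E) (hP c)
    have a2 := hmono (e - 9) (e - 1) (by linarith) ((hW c 4).2 e E hE)
    have a3 := Submodule.add_mem _ a1 a2
    rw [LinearMap.sub_apply, LinearMap.sub_apply, Module.End.mul_apply, LinearMap.smul_apply] at a3
    have hc : ((((om6 4) ^ c : ℤ)) : ZMod 7) = (2 : ZMod 7) ^ c := by
      rw [Int.cast_pow, om4]
    rw [hc] at a3
    have e1 : op7 6 (-1) 2 (-2) (pj c E) - oW 4 (pj c E) + (oW 4 (pj c E) - (2 : ZMod 7) ^ c • pj c E)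
        = op7 6 (-1) 2 (-2) (pj c E) - (2 : ZMod 7) ^ c • pj c E := by abel
    rw [e1] at a3
    exact a3
  have hEs : E = pj 0 E + pj 1 E + pj 2 E + pj 3 E + pj 4 E + pj 5 E := by
    have h := congrArg (fun O : Module.End (ZMod 7) (Fn7 (7 ^ r) (7 ^ s)) => O E) hsum
    simp only [Finset.sum_range_succ, Finset.sum_range_zero, zero_add, LinearMap.add_apply, Module.End.one_apply] at h
    exact h.symm
  refine ⟨pj 1 E + (5 : ZMod 7) • pj 2 E + pj 4 E + (5 : ZMod 7) • pj 5 E, ?_, ?_⟩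
  · exact Submodule.add_mem _ (Submodule.add_mem _ (Submodule.add_mem _ (hP 1) (Submodule.smul_mem _ _ (hP 2))) (hP 4))
      (Submodule.smul_mem _ _ (hP 5))
  · have key : E + ((pj 1 E + (5 : ZMod 7) • pj 2 E + pj 4 E + (5 : ZMod 7) • pj 5 E) -
        op7 6 (-1) 2 (-2) (pj 1 E + (5 : ZMod 7) • pj 2 E + pj 4 E + (5 : ZMod 7) • pj 5 E)) =
        pj 0 E + pj 3 E - (op7 6 (-1) 2 (-2) (pj 1 E) - (2 : ZMod 7) ^ 1 • pj 1 E)
          - (5 : ZMod 7) • (op7 6 (-1) 2 (-2) (pj 2 E) - (2 : ZMod 7) ^ 2 • pj 2 E)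
          - (op7 6 (-1) 2 (-2) (pj 4 E) - (2 : ZMod 7) ^ 4 • pj 4 E)
          - (5 : ZMod 7) • (op7 6 (-1) 2 (-2) (pj 5 E) - (2 : ZMod 7) ^ 5 • pj 5 E) := by
      simp only [map_add, map_smul]
      generalize hA1 : op7 6 (-1) 2 (-2) (pj 1 E) = A1
      generalize hA2 : op7 6 (-1) 2 (-2) (pj 2 E) = A2
      generalize hA4 : op7 6 (-1) 2 (-2) (pj 4 E) = A4
      generalize hA5 : op7 6 (-1) 2 (-2) (pj 5 E) = A5
      clear hA1 hA2 hA4 hA5 hK hP h0 h3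
      generalize hP0 : pj 0 E = P0 at hEs
      generalize hP1 : pj 1 E = P1 at hEs
      generalize hP2 : pj 2 E = P2 at hEs
      generalize hP3 : pj 3 E = P3 at hEs
      generalize hP4 : pj 4 E = P4 at hEs
      generalize hP5 : pj 5 E = P5 at hEs
      rw [hEs]
      have c1 : (2 : ZMod 7) ^ 1 = 2 := by decide
      have c2 : (2 : ZMod 7) ^ 2 = 4 := by decide
      have c4 : (2 : ZMod 7) ^ 4 = 2 := by decide
      have c5 : (2 : ZMod 7) ^ 5 = 4 := by decide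
      rw [c1, c2, c4, c5]
      funext x y
      simp only [Pi.add_apply, Pi.sub_apply, Pi.smul_apply, smul_eq_mul]
      have h7 : (7 : ZMod 7) = 0 := by decide
      linear_combination (-(2 * P2 x y) - 2 * P5 x y) * h7
    rw [key]
    refine Submodule.sub_mem _ (Submodule.sub_mem _ (Submodule.sub_mem _ (Submodule.sub_mem _
      (Submodule.add_mem _ h0 h3) (hK 1)) (Submodule.smul_mem _ _ (hK 2))) (hK 4)) (Submodule.smul_mem _ _ (hK 5))

theorem hLwd (ht : S7Trm) (_hl : S7Low0) (h1 : S7Lw1) : TLwd := by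
  intro r s d F hF
  have w0 : (oW 0 : Module.End (ZMod 7) (Fn7 (7 ^ r) (7 ^ s))) = 1 := by
    apply LinearMap.ext
    intro G
    exact (ht (ZMod 7) r s G).2.1
  have om0 : om6 0 = 1 := rfl
  have om4' : om6 4 = -19 := rfl
  obtain ⟨-, hη⟩ := (h1 r s 4 (-3) 2 (-10) (by norm_num) (by norm_num)).2 0 (by rw [om0]; norm_num)
  obtain ⟨-, hηT⟩ := (h1 r s 4 1 2 4 (by norm_num) (by norm_num)).2 0 (by rw [om0]; norm_num)
  obtain ⟨-, hδ⟩ := (h1 r s 6 (-1) 2 (-2) (by norm_num) (by norm_num)).2 4 (by rw [om4']; norm_num)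
  have c1 : (((-3 * 4 ^ 5 : ℤ)) : ZMod 7) = 1 := by decide
  have c2 : (((2 * 4 ^ 5 * om6 0 ^ 5 : ℤ)) : ZMod 7) = 4 := by decide
  have c3 : (((1 * 4 ^ 5 : ℤ)) : ZMod 7) = 2 := by decide
  have c4 : (((-1 * 6 ^ 5 : ℤ)) : ZMod 7) = 1 := by decide
  have c5 : (((2 * 6 ^ 5 * om6 4 ^ 5 : ℤ)) : ZMod 7) = 6 := by decide
  rw [c1, c2, w0] at hη
  rw [c3, c2, w0] at hηT
  rw [c4, c5] at hδ
  have a1 := hη d (F 1) (hF 1)
  have a2 := hη d (F 0) (hF 0)
  have a3 := hηT d (F 0) (hF 0)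
  have a4 := hδ d (F 2) (hF 2)
  have a5 := Submodule.add_mem _ (Submodule.sub_mem _ (Submodule.sub_mem _ a2 a1) a3) a4
  convert a5 using 1
  simp only [LinearMap.sub_apply, LinearMap.add_apply, Module.End.mul_apply, Module.End.one_apply,
    LinearMap.smul_apply, one_smul, one_mul]
  have e0 : (DfH F : Fn7 (7 ^ r) (7 ^ s)) = F 1 - op7 4 (-3) 2 (-10) (F 1) +
      (op7 4 (-3) 2 (-10) (F 0) - op7 4 1 2 4 (F 0)) - (F 2 - op7 6 (-1) 2 (-2) (F 2)) := rfl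
  rw [e0]
  generalize op7 4 (-3) 2 (-10) (F 1) = B1
  generalize op7 4 (-3) 2 (-10) (F 0) = B0
  generalize op7 4 1 2 4 (F 0) = B2
  generalize op7 6 (-1) 2 (-2) (F 2) = B3
  generalize oW 4 (F 2 + dX (F 2) + (6 : ZMod 7) • dY (F 2)) = B4
  funext x y
  simp only [Pi.add_apply, Pi.sub_apply, Pi.smul_apply, smul_eq_mul]
  ring

end Pool.Agent.Helper94.TH7
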